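import Pool.Agent.W495.TB.Stms
import Pool.Agent.W978.TA.SS

/-!
# A supersingular elliptic curve with complex multiplication (task `S_ss2` of the project TB)
-/

set_option autoImplicit false
set_option linter.unusedSectionVars false
set_option linter.unusedVariables false

namespace Pool.Agent.W287.TBSS

open NumberField Pool.Agent.H204R3.CM Pool.Agent.W547.KB Pool.Agent.W547.LD Module
open Pool.Agent.W495.TA Pool.Agent.W495.TB Pool.Agent.W978.TASS

noncomputable section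

section

variable (p : ℕ) [Fact p.Prime] (ν : PadicAlgCl p ≃+* ℂ) {L : Type}
    [Field L] [NumberField L] [IsCMField L] [IsGalois ℚ L] (j : L →+* ℂ)

/-- multiplication by an element of the decomposition group outside of `N` changes the sign -/
theorem tf_imag {N : Subgroup (L ≃ₐ[ℚ] L)} (hN : IsImag N) (hD : ¬ Dec p ν j ≤ N)
    (σ : L ≃ₐ[ℚ] L) : tf p ν j (N : Set (L ≃ₐ[ℚ] L)) σ = 0 := by
  classical
  obtain ⟨d₀, hd₀, hd₀N⟩ := Set.not_subset.1 hD
  have hd₀' : d₀ ∈ Dec p ν j := hd₀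
  have hd₀N' : d₀ ∉ N := hd₀N
  have h1 : tf p ν j (N : Set (L ≃ₐ[ℚ] L)) σ = - tf p ν j (N : Set (L ≃ₐ[ℚ] L)) σ := by
    conv_lhs => unfold tf
    rw [← Equiv.sum_comp (Equiv.mulLeft d₀)]
    unfold tf
    rw [← Finset.sum_neg_distrib]
    refine Finset.sum_congr rfl fun d _ => ?_
    rw [Equiv.coe_mulLeft]
    have e1 : d₀ * d ∈ Dec p ν j ↔ d ∈ Dec p ν j := (Dec p ν j).mul_mem_cancel_left hd₀'
    have e2 : d₀ * d * σ ∈ (N : Set (L ≃ₐ[ℚ] L)) ↔ ¬ d * σ ∈ (N : Set (L ≃ₐ[ℚ] L)) := by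
      rw [SetLike.mem_coe, SetLike.mem_coe, mul_assoc, hN.mul_mem_iff j]
      tauto
    by_cases h : d ∈ Dec p ν j
    · rw [if_pos h, if_pos (e1.2 h)]
      by_cases h2 : d * σ ∈ (N : Set (L ≃ₐ[ℚ] L))
      · rw [if_pos h2, if_neg (fun h3 => e2.1 h3 h2)]
      · rw [if_neg h2, if_pos (e2.2 h2), neg_neg]
    · rw [if_neg h, if_neg (fun h3 => h (e1.1 h3)), neg_zero]
  omega

include j in
theorem isHalf_imag {N : Subgroup (L ≃ₐ[ℚ] L)} (hN : IsImag N) :
    IsHalf (N : Set (L ≃ₐ[ℚ] L)) := by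
  intro σ
  rw [SetLike.mem_coe, SetLike.mem_coe, hN.mul_mem_iff j]
  have := hN.1
  tauto

include j in
theorem tr_imag {N : Subgroup (L ≃ₐ[ℚ] L)} (hN : IsImag N) (τ : L ≃ₐ[ℚ] L) :
    tr τ (N : Set (L ≃ₐ[ℚ] L)) = (N : Set (L ≃ₐ[ℚ] L)) ∨
      tr τ (N : Set (L ≃ₐ[ℚ] L)) = (N : Set (L ≃ₐ[ℚ] L))ᶜ := by
  by_cases h : τ ∈ N
  · left
    ext σ
    rw [mem_tr, SetLike.mem_coe, SetLike.mem_coe, hN.mul_mem_iff j]
    tauto
  · right
    ext σ
    rw [mem_tr, Set.mem_compl_iff, SetLike.mem_coe, SetLike.mem_coe, hN.mul_mem_iff j]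
    tauto

end

theorem ss2 : S_ss2 := by
  intro hval p _ ν L _ _ _ _ j N hN hD
  classical
  refine ⟨tf_imag p ν j hN hD, ?_⟩
  set e : Set (L ≃ₐ[ℚ] L) := (N : Set (L ≃ₐ[ℚ] L)) with he
  have hh : IsHalf e := isHalf_imag j hN
  have htr := tr_imag j hN
  have hz : ∀ σ, tf p ν j e σ = 0 := tf_imag p ν j hN hD
  have hz' : ∀ τ : L ≃ₐ[ℚ] L, tf p ν j (tr τ e) = 0 := by
    intro τ
    funext σ
    rcases htr τ with h | h
    · rw [h]; exact hz σ
    · rw [h, tf_compl, hz σ, neg_zero]; rfl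
  have hhs : ∀ τ : L ≃ₐ[ℚ] L, hs (pairOf j e hh) j (emb e τ) = tr τ e := by
    intro τ
    ext σ
    rw [mem_tr, ← mem_typ j e (σ * τ)]
    exact Iff.rfl
  have hbig : BigA (pairOf j e hh) j := by
    intro ψ
    obtain ⟨τ, hτ⟩ := exists_embC j e ψ
    exact ⟨emb e τ, hτ.symm⟩
  have hfrob : IsFrobenius p ν (pairOf j e hh) 2 ((p : ℕ) : (pairOf j e hh).E) := by
    refine ⟨?_, ?_, ?_⟩
    · exact (isIntegral_algebraMap (R := ℤ) (x := (p : ℤ)) (A := (pairOf j e hh).E)) |> fun h => by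
        simpa using h
    · intro φ
      rw [map_natCast, Complex.norm_natCast]
    · refine (hval p ν L j (pairOf j e hh) hbig 2 _).2 ?_
      intro φ
      obtain ⟨τ, hτ⟩ := exists_emb e φ
      have h1 : hs (pairOf j e hh) j φ = tr τ e := by
        rw [← hhs τ]
        congr 1
      rw [h1, hz' τ, Pi.zero_apply, add_zero, map_natCast, map_natCast, map_natCast, norm_pow,
        zpow_mul]
      norm_cast
  let E : RedAV p ν :=
    { X := single (pairOf j e hh)
      a := 2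
      pos := by norm_num
      π := fun _ => ((p : ℕ) : (pairOf j e hh).E)
      frob := fun _ => hfrob }
  have hw : Function.Bijective
      (fun k : Fin 2 => (⟨(), emb e (if k = 0 then 1 else cc L)⟩ : Wt E.X L)) := by
    constructor
    · intro k k' h
      have h1 : emb e (if k = 0 then 1 else cc L) = emb e (if k' = 0 then 1 else cc L) :=
        eq_of_heq (Sigma.mk.inj h).2
      rw [emb_eq_iff] at h1
      fin_cases k <;> fin_cases k' <;> simp at h1 ⊢
      · rw [tr_one, tr_cc j hh] at h1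
        exact ne_compl e h1
      · rw [tr_one, tr_cc j hh] at h1
        exact ne_compl e h1.symm
    · rintro ⟨⟨⟩, φ⟩
      obtain ⟨τ, hτ⟩ := exists_emb e φ
      subst hτ
      rcases htr τ with h | h
      · refine ⟨0, ?_⟩
        have : emb e 1 = emb e τ := by
          rw [emb_eq_iff, tr_one, h]
        simp [this]
      · refine ⟨1, ?_⟩
        have : emb e (cc L) = emb e τ := by
          rw [emb_eq_iff, tr_cc j hh, h]
        simp [this]
  refine ⟨E, ?_, Equiv.ofBijective _ hw, ?_⟩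
  · intro i ψ
    exact hbig ψ
  · intro k
    have h1 : St j ((Equiv.ofBijective _ hw) k) = tr (if k = 0 then 1 else cc L) e :=
      hhs _
    rw [h1]
    exact hz' _

end

end Pool.Agent.W287.TBSS
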